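import Pool.Agent.Helper61.P3.St2

/-!
# Project P3 (MP_cb927e_an), module BN2: numbers
-/

set_option autoImplicit false

open MeasureTheory Set Filter Topology
open scoped ENNReal RealInnerProductSpace

namespace Pool.Agent.Helper38.P3

open Pool.Agent.Helper61.P3
open Pool.Agent.Helper68.LM (Pl BB Bd Av HL ft fm DQ)
open Pool.Agent.Helper20.RG
open Pool.Agent.Helper20.EQ
open Pool.Agent.Helper68.EP (elt GapP)

theorem bn2_sq (u : ℕ) : ((u : ℝ) + 4) ^ 2 ≤ 64 * (2 : ℝ) ^ u := by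
  induction u with
  | zero => norm_num
  | succ n ih =>
    have e : (2 : ℝ) ^ (n + 1) = 2 ^ n * 2 := pow_succ _ _
    rw [e]
    push_cast
    have hn : (0 : ℝ) ≤ n := Nat.cast_nonneg n
    nlinarith

theorem bn2_half (u : ℕ) : (u : ℝ) + 4 ≤ 8 * (2 : ℝ) ^ ((u : ℝ) / 2) := by
  have h := bn2_sq u
  have e : (8 * (2 : ℝ) ^ ((u : ℝ) / 2)) ^ 2 = 64 * (2 : ℝ) ^ u := by
    rw [mul_pow, ← Real.rpow_natCast ((2 : ℝ) ^ ((u : ℝ) / 2)) 2, ← Real.rpow_mul (by norm_num),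
      ← Real.rpow_natCast 2 u]
    congr 1
    · norm_num
    · congr 1
      push_cast
      ring
  rw [← e] at h
  exact le_of_sq_le_sq h (by positivity)

/-- a geometric series starting at `v` -/
theorem bn2_geo (v : ℕ) (c : ℝ) (hc : 0 ≤ c) :
    ∑' u : ℕ, (if v ≤ u then ENNReal.ofReal (c * (1 / 2 : ℝ) ^ (u - v)) else 0) = ENNReal.ofReal (2 * c) := by
  have hinj : Function.Injective (fun n : ℕ => n + v) := fun a b h => by simpa using h
  have hsup : Function.support (fun u : ℕ => (if v ≤ u then ENNReal.ofReal (c * (1 / 2 : ℝ) ^ (u - v)) else 0)) ⊆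
      Set.range (fun n : ℕ => n + v) := by
    intro u hu
    have : v ≤ u := by
      by_contra h
      exact hu (if_neg h)
    exact ⟨u - v, by show u - v + v = u; omega⟩
  rw [← hinj.tsum_eq hsup]
  have e : ∀ n : ℕ, (if v ≤ n + v then ENNReal.ofReal (c * (1 / 2 : ℝ) ^ (n + v - v)) else 0) =
      ENNReal.ofReal (c * (1 / 2 : ℝ) ^ n) := by
    intro n
    rw [if_pos (Nat.le_add_left v n), Nat.add_sub_cancel]
  simp_rw [e]
  rw [← ENNReal.ofReal_tsum_of_nonneg (fun n => by positivity)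
    ((summable_geometric_of_lt_one (by norm_num) (by norm_num)).mul_left _), tsum_mul_left,
    tsum_geometric_of_lt_one (by norm_num) (by norm_num)]
  congr 1
  ring

theorem hBN2 (hCN : Pool.Agent.Helper20.EQ.StCN) (hWT : Pool.Agent.Helper20.EQ.StWT)
    (hSS : Pool.Agent.Helper20.EQ.StSS) : Pool.Agent.Helper61.P3.StBN2 := by
  classical
  intro φ τ A hG hA hP
  obtain ⟨C₁, hC₁, hs⟩ := hSS 3 (by norm_num)
  refine ⟨908 * (C₁ * A) + 218, by positivity, ?_⟩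
  intro v l θ hv
  obtain ⟨Y, hYdef⟩ : ∃ Y : ℝ, Y = (2 : ℝ) ^ v := ⟨_, rfl⟩
  have hY : 2 ≤ Y := by
    rw [hYdef]
    calc (2 : ℝ) = 2 ^ 1 := (pow_one _).symm
      _ ≤ 2 ^ v := pow_le_pow_right₀ (by norm_num) hv
  have hY0 : 0 < Y := by linarith
  have hYr : Y = (2 : ℝ) ^ (v : ℝ) := by rw [hYdef, Real.rpow_natCast]
  have hl0 : (0 : ℝ) ≤ l := Nat.cast_nonneg _
  have hv0 : (0 : ℝ) ≤ v := Nat.cast_nonneg _
  obtain ⟨B, hB⟩ : ∃ B : ℝ, B = (2 : ℝ) ^ ((3 / 4 : ℝ) * v) * (2 : ℝ) ^ ((3 / 4 : ℝ) * l) := ⟨_, rfl⟩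
  have hB' : B = (2 : ℝ) ^ ((3 / 4 : ℝ) * v + (3 / 4 : ℝ) * l) := by
    rw [hB, ← Real.rpow_add (by norm_num)]
  have hB0 : 0 < B := by rw [hB]; positivity
  have hB1 : 1 ≤ B := by
    rw [hB']
    exact Real.one_le_rpow (by norm_num) (by positivity)
  obtain ⟨Q, hQ⟩ : ∃ Q : ℝ, Q = (2 : ℝ) ^ l := ⟨_, rfl⟩
  have hQr : Q = (2 : ℝ) ^ (l : ℝ) := by rw [hQ, Real.rpow_natCast]
  have hQ1 : 1 ≤ Q := by rw [hQ]; exact one_le_pow₀ (by norm_num)
  have hQ0 : 0 < Q := by linarith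
  obtain ⟨lam, hlam⟩ : ∃ lam : ℝ, lam = B / Q := ⟨_, rfl⟩
  have hlam0 : 0 < lam := by rw [hlam]; positivity
  have hlamr : lam = (2 : ℝ) ^ ((3 / 4 : ℝ) * v - (1 / 4 : ℝ) * l) := by
    rw [hlam, hB', hQr, ← Real.rpow_sub (by norm_num)]
    congr 1
    ring
  obtain ⟨E1, hE1⟩ : ∃ E1 : ℝ, E1 = (2 : ℝ) ^ ((3 / 4 : ℝ) * l - (9 / 4 : ℝ) * v) := ⟨_, rfl⟩
  obtain ⟨E2, hE2⟩ : ∃ E2 : ℝ, E2 = (2 : ℝ) ^ ((l : ℝ) - 3 * v) := ⟨_, rfl⟩
  have hE10 : 0 < E1 := by rw [hE1]; positivity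
  have hE20 : 0 < E2 := by rw [hE2]; positivity
  -- L
  have hL : ∀ i, 0 ≤ elt τ θ i ∧ elt τ θ i ≤ 1 := fun i =>
    ⟨(hCN φ τ hG 0 i θ).2.2.1, (hCN φ τ hG 0 i θ).2.2.2.1⟩
  have hanti : Antitone (elt τ θ) := antitone_nat_of_succ_le (fun i => (hCN φ τ hG 0 i θ).2.2.2.2.1)
  have hs1 := (hs (elt τ θ) A (Y / 2) hL (hP θ) (by positivity)).1
  have hs2 := (hs (elt τ θ) A lam hL (hP θ) hlam0).2
  -- the three parts
  set a1 : ℕ → ℝ≥0∞ := fun u => ENNReal.ofReal (101 * B + 100 * Q) *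
    ∑' i : ℕ, ENNReal.ofReal (if Y / 2 ≤ (2 : ℝ) ^ u * elt τ θ (i + 1) then
      (2 : ℝ) ^ (-(3 * (u : ℝ))) else 0) with ha1
  set a2 : ℕ → ℝ≥0∞ := fun u =>
    (if v ≤ u then ENNReal.ofReal ((109 * E1 + 100 * E2) * (1 / 2 : ℝ) ^ (u - v)) else 0) with ha2
  set a4 : ℕ → ℝ≥0∞ := fun u => ENNReal.ofReal (100 * lam⁻¹) *
    ∑' i : ℕ, ENNReal.ofReal (if lam ≤ (2 : ℝ) ^ u * elt τ θ (i + 1) then
      (2 : ℝ) ^ ((1 - 3) * (u : ℝ)) * elt τ θ (i + 1) else 0) with ha4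
  have key : ∀ u : ℕ, (if 1 ≤ u ∧ v ≤ u then
      ENNReal.ofReal ((2 : ℝ) ^ (-(3 * (u : ℝ))) * mq τ u v l θ) else 0) ≤ a1 u + a2 u + a4 u := by
    intro u
    split_ifs with hc
    swap
    · exact zero_le
    obtain ⟨hu1, huv⟩ := hc
    obtain ⟨w1, w2, w3, w4, w5, w6⟩ := hWT φ τ A 3 hG hA hP (by norm_num) u Y θ hu1 hY
    obtain ⟨Wu, hWu⟩ : ∃ Wu : ℕ, Wu = Wt τ u Y θ := ⟨_, rfl⟩
    obtain ⟨T, hTdef⟩ : ∃ T : ℕ, T = T0 τ u v l θ := ⟨_, rfl⟩
    rw [← hWu] at w1 w2 w3 w4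
    obtain ⟨w, hw⟩ : ∃ w : ℝ, w = (Wu : ℝ) + 1 := ⟨_, rfl⟩
    have hWu0 : (0 : ℝ) ≤ Wu := Nat.cast_nonneg _
    have hw1 : 1 ≤ w := by rw [hw]; linarith
    have hwY : 0 ≤ w * B := by positivity
    have hTeq : T = ⌈w * B⌉₊ + 2 := by
      rw [hTdef, hw, hWu, hYdef, hB, ← mul_assoc]
      rfl
    have hT1 : w * B + 2 ≤ (T : ℝ) := by
      rw [hTeq]
      push_cast
      have := Nat.le_ceil (w * B)
      linarith
    have hT2 : (T : ℝ) ≤ w * B + 3 := by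
      rw [hTeq]
      push_cast
      have := (Nat.ceil_lt_add_one hwY).le
      linarith
    have hwT : w + 2 ≤ (T : ℝ) := by
      have : w * 1 ≤ w * B := mul_le_mul_of_nonneg_left hB1 (by linarith)
      linarith
    have hWT' : Wu + 2 ≤ T := by
      have : ((Wu + 2 : ℕ) : ℝ) ≤ (T : ℝ) := by
        push_cast
        rw [hw] at hwT
        linarith
      exact_mod_cast this
    -- the near set
    obtain ⟨N, hN⟩ : ∃ N : Finset ℕ, N = (Finset.range (2 ^ u)).filter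
      (fun j => |sl τ u j - θ| ≤ (2 : ℝ) ^ (-(T : ℤ))) := ⟨_, rfl⟩
    have hNc : (N.card : ℝ) ≤ 1 + (2 : ℝ) ^ u * elt τ θ T := by
      have e : nn τ u θ T = N.card := by
        unfold nn
        rw [← Set.ncard_coe_finset]
        congr 1
        ext j
        rw [hN, Finset.coe_filter]
        simp only [Set.mem_ofPred_eq, Finset.mem_range]
      rw [← e]
      exact (hCN φ τ hG u T θ).1
    have hterm : ∀ j ∈ N, Q * (Tj τ u v j : ℝ) + 1 ≤ 100 * (Q * w) := by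
      intro j hj
      rw [hN] at hj
      have hj' := (Finset.mem_filter.1 hj).2
      have h1 := w3 T (sl τ u j) hWT' (by rw [abs_sub_comm]; exact hj')
      have h2 : (Wt τ u Y (sl τ u j) : ℝ) ≤ (Wu : ℝ) + 1 := by exact_mod_cast h1
      have h3 : (Tj τ u v j : ℝ) ≤ 99 * w := by
        unfold Tj
        rw [← hYdef]
        push_cast
        rw [hw]
        linarith
      have h4 : Q * (Tj τ u v j : ℝ) ≤ Q * (99 * w) := mul_le_mul_of_nonneg_left h3 hQ0.le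
      have h5 : 1 ≤ Q * w := by nlinarith
      linarith
    have hsum : ∑ j ∈ N, (Q * (Tj τ u v j : ℝ) + 1) ≤
        (1 + (2 : ℝ) ^ u * elt τ θ T) * (100 * (Q * w)) := by
      refine (Finset.sum_le_sum hterm).trans ?_
      rw [Finset.sum_const, nsmul_eq_mul]
      exact mul_le_mul_of_nonneg_right hNc (by positivity)
    -- the sum S
    obtain ⟨S, hS⟩ : ∃ S : ℝ, S = ∑ i ∈ Finset.range T,
      (if lam ≤ (2 : ℝ) ^ u * elt τ θ (i + 1) then elt τ θ (i + 1) else 0) := ⟨_, rfl⟩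
    have hS0 : 0 ≤ S := by
      rw [hS]
      refine Finset.sum_nonneg (fun i _ => ?_)
      split_ifs
      · exact (hL _).1
      · exact le_rfl
    have hel : 0 ≤ elt τ θ T := (hL T).1
    have h2u : (0 : ℝ) < (2 : ℝ) ^ u := by positivity
    have hcase : (2 : ℝ) ^ u * elt τ θ T * w ≤ lam * w + (2 : ℝ) ^ u * (B⁻¹ * S) := by
      by_cases hcs : (2 : ℝ) ^ u * elt τ θ T ≤ lam
      · have h1 : (2 : ℝ) ^ u * elt τ θ T * w ≤ lam * w :=
          mul_le_mul_of_nonneg_right hcs (by linarith)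
        have h2 : 0 ≤ (2 : ℝ) ^ u * (B⁻¹ * S) := by positivity
        linarith
      · push Not at hcs
        have h1 : (T : ℝ) * elt τ θ T ≤ S := by
          have e : ∑ _i ∈ Finset.range T, elt τ θ T = (T : ℝ) * elt τ θ T := by
            rw [Finset.sum_const, Finset.card_range, nsmul_eq_mul]
          rw [← e, hS]
          refine Finset.sum_le_sum (fun i hi => ?_)
          have hi' : i + 1 ≤ T := Finset.mem_range.1 hi
          have h3 : elt τ θ T ≤ elt τ θ (i + 1) := hanti hi'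
          rw [if_pos (hcs.le.trans (mul_le_mul_of_nonneg_left h3 h2u.le))]
          exact h3
        have h2 : w ≤ B⁻¹ * T := by
          have h4 : w * B ≤ T := by linarith
          rw [inv_mul_eq_div, le_div_iff₀ hB0]
          exact h4
        have h5 : elt τ θ T * w ≤ B⁻¹ * S := by
          calc elt τ θ T * w ≤ elt τ θ T * (B⁻¹ * T) := mul_le_mul_of_nonneg_left h2 hel
            _ = B⁻¹ * ((T : ℝ) * elt τ θ T) := by ring
            _ ≤ _ := mul_le_mul_of_nonneg_left h1 (by positivity)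
        have h6 : 0 ≤ lam * w := by positivity
        calc (2 : ℝ) ^ u * elt τ θ T * w = (2 : ℝ) ^ u * (elt τ θ T * w) := by ring
          _ ≤ (2 : ℝ) ^ u * (B⁻¹ * S) := mul_le_mul_of_nonneg_left h5 h2u.le
          _ ≤ _ := by linarith
    have hu0 : (0 : ℝ) ≤ u := Nat.cast_nonneg _
    have hQlam : Q * lam = B := by rw [hlam]; field_simp
    have hQB : Q * B⁻¹ = lam⁻¹ := by rw [hlam]; field_simp
    have hbr : (T : ℝ) + u + 1 + ∑ j ∈ N, (Q * (Tj τ u v j : ℝ) + 1) ≤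
        (101 * B + 100 * Q) * Wu + (101 * B + 100 * Q + (u + 4)) + 100 * lam⁻¹ * ((2 : ℝ) ^ u * S) := by
      have h2 : 100 * Q * ((2 : ℝ) ^ u * elt τ θ T * w) ≤
          100 * Q * (lam * w + (2 : ℝ) ^ u * (B⁻¹ * S)) :=
        mul_le_mul_of_nonneg_left hcase (by positivity)
      have e1 : (1 + (2 : ℝ) ^ u * elt τ θ T) * (100 * (Q * w)) =
          100 * Q * w + 100 * Q * ((2 : ℝ) ^ u * elt τ θ T * w) := by ring
      have e2 : 100 * Q * (lam * w + (2 : ℝ) ^ u * (B⁻¹ * S)) =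
          100 * ((Q * lam) * w) + 100 * (Q * B⁻¹) * ((2 : ℝ) ^ u * S) := by ring
      rw [e2, hQlam, hQB] at h2
      rw [e1] at hsum
      have e3 : (101 * B + 100 * Q) * Wu + (101 * B + 100 * Q + (u + 4)) + 100 * lam⁻¹ * ((2 : ℝ) ^ u * S) =
          (w * B + 3) + u + 1 + 100 * Q * w + (100 * (B * w) + 100 * lam⁻¹ * ((2 : ℝ) ^ u * S)) := by
        rw [hw]; ring
      rw [e3]
      linarith
    -- multiply
    have h2pu : (0 : ℝ) < (2 : ℝ) ^ (-(3 * (u : ℝ))) := by positivity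
    have huv' : ((u - v : ℕ) : ℝ) = (u : ℝ) - v := by
      rw [Nat.cast_sub huv]
    have hhalf : (1 / 2 : ℝ) ^ (u - v) = (2 : ℝ) ^ (-((u : ℝ) - v)) := by
      rw [Real.rpow_neg (by norm_num), ← huv', Real.rpow_natCast, one_div, inv_pow]
    have huv0 : 0 ≤ (u : ℝ) - v := by rw [← huv']; exact Nat.cast_nonneg _
    have hmid : (2 : ℝ) ^ (-(3 * (u : ℝ))) * (101 * B + 100 * Q + (u + 4)) ≤
        (109 * E1 + 100 * E2) * (1 / 2 : ℝ) ^ (u - v) := by
      have c1 : (2 : ℝ) ^ (-(3 * (u : ℝ))) * B ≤ E1 * (1 / 2 : ℝ) ^ (u - v) := by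
        rw [hhalf, hB', hE1, ← Real.rpow_add (by norm_num), ← Real.rpow_add (by norm_num)]
        refine Real.rpow_le_rpow_of_exponent_le (by norm_num) ?_
        linarith
      have c2 : (2 : ℝ) ^ (-(3 * (u : ℝ))) * Q ≤ E2 * (1 / 2 : ℝ) ^ (u - v) := by
        rw [hhalf, hQr, hE2, ← Real.rpow_add (by norm_num), ← Real.rpow_add (by norm_num)]
        refine Real.rpow_le_rpow_of_exponent_le (by norm_num) ?_
        linarith
      have c3 : (2 : ℝ) ^ (-(3 * (u : ℝ))) * ((u : ℝ) + 4) ≤ 8 * (E1 * (1 / 2 : ℝ) ^ (u - v)) := by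
        calc (2 : ℝ) ^ (-(3 * (u : ℝ))) * ((u : ℝ) + 4) ≤
            (2 : ℝ) ^ (-(3 * (u : ℝ))) * (8 * (2 : ℝ) ^ ((u : ℝ) / 2)) :=
              mul_le_mul_of_nonneg_left (bn2_half u) h2pu.le
          _ = 8 * ((2 : ℝ) ^ (-(3 * (u : ℝ))) * (2 : ℝ) ^ ((u : ℝ) / 2)) := by ring
          _ ≤ 8 * (E1 * (1 / 2 : ℝ) ^ (u - v)) := by
              refine mul_le_mul_of_nonneg_left ?_ (by norm_num)
              rw [hhalf, hE1, ← Real.rpow_add (by norm_num), ← Real.rpow_add (by norm_num)]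
              refine Real.rpow_le_rpow_of_exponent_le (by norm_num) ?_
              nlinarith
      calc (2 : ℝ) ^ (-(3 * (u : ℝ))) * (101 * B + 100 * Q + (u + 4))
          = 101 * ((2 : ℝ) ^ (-(3 * (u : ℝ))) * B) + 100 * ((2 : ℝ) ^ (-(3 * (u : ℝ))) * Q) +
            (2 : ℝ) ^ (-(3 * (u : ℝ))) * ((u : ℝ) + 4) := by ring
        _ ≤ 101 * (E1 * (1 / 2 : ℝ) ^ (u - v)) + 100 * (E2 * (1 / 2 : ℝ) ^ (u - v)) +
            8 * (E1 * (1 / 2 : ℝ) ^ (u - v)) := by linarith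
        _ = _ := by ring
    have hreal : (2 : ℝ) ^ (-(3 * (u : ℝ))) * mq τ u v l θ ≤
        (101 * B + 100 * Q) * (Wu * (2 : ℝ) ^ (-(3 * (u : ℝ)))) +
        (109 * E1 + 100 * E2) * (1 / 2 : ℝ) ^ (u - v) +
        100 * lam⁻¹ * ((2 : ℝ) ^ ((1 - 3) * (u : ℝ)) * S) := by
      have e3 : (2 : ℝ) ^ (-(3 * (u : ℝ))) * (2 : ℝ) ^ u = (2 : ℝ) ^ ((1 - 3) * (u : ℝ)) := by
        rw [← Real.rpow_natCast 2 u, ← Real.rpow_add (by norm_num)]
        congr 1
        ring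
      have e4 : mq τ u v l θ = (T : ℝ) + u + 1 + ∑ j ∈ N, (Q * (Tj τ u v j : ℝ) + 1) := by
        rw [hTdef, hN, hQ, hTdef]
        rfl
      rw [e4]
      calc _ ≤ (2 : ℝ) ^ (-(3 * (u : ℝ))) * ((101 * B + 100 * Q) * Wu + (101 * B + 100 * Q + (u + 4)) +
            100 * lam⁻¹ * ((2 : ℝ) ^ u * S)) := mul_le_mul_of_nonneg_left hbr h2pu.le
        _ = (101 * B + 100 * Q) * (Wu * (2 : ℝ) ^ (-(3 * (u : ℝ)))) +
            (2 : ℝ) ^ (-(3 * (u : ℝ))) * (101 * B + 100 * Q + (u + 4)) +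
            100 * lam⁻¹ * (((2 : ℝ) ^ (-(3 * (u : ℝ))) * (2 : ℝ) ^ u) * S) := by ring
        _ ≤ _ := by
            rw [e3]
            linarith
    -- ENNReal
    have ha2u : a2 u = ENNReal.ofReal ((109 * E1 + 100 * E2) * (1 / 2 : ℝ) ^ (u - v)) := if_pos huv
    refine (ENNReal.ofReal_le_ofReal hreal).trans ?_
    rw [ENNReal.ofReal_add (by positivity) (by positivity),
      ENNReal.ofReal_add (by positivity) (by positivity), ha2u]
    refine add_le_add (add_le_add ?_ le_rfl) ?_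
    · rw [ENNReal.ofReal_mul (by positivity)]
      refine mul_le_mul' le_rfl ?_
      have e : ENNReal.ofReal ((Wu : ℝ) * (2 : ℝ) ^ (-(3 * (u : ℝ)))) =
          ∑ i ∈ Finset.range Wu, ENNReal.ofReal (if Y / 2 ≤ (2 : ℝ) ^ u * elt τ θ (i + 1) then
            (2 : ℝ) ^ (-(3 * (u : ℝ))) else 0) := by
        rw [Finset.sum_congr rfl (g := fun _ => ENNReal.ofReal ((2 : ℝ) ^ (-(3 * (u : ℝ)))))]
        · rw [Finset.sum_const, Finset.card_range, nsmul_eq_mul,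
            ENNReal.ofReal_mul (Nat.cast_nonneg _), ENNReal.ofReal_natCast]
        · intro i hi
          rw [if_pos (w4 (i + 1) (by omega) (Finset.mem_range.1 hi))]
      rw [e]
      exact ENNReal.sum_le_tsum _
    · rw [ENNReal.ofReal_mul (by positivity)]
      refine mul_le_mul' le_rfl ?_
      have e : ENNReal.ofReal ((2 : ℝ) ^ ((1 - 3) * (u : ℝ)) * S) =
          ∑ i ∈ Finset.range T, ENNReal.ofReal (if lam ≤ (2 : ℝ) ^ u * elt τ θ (i + 1) then
            (2 : ℝ) ^ ((1 - 3) * (u : ℝ)) * elt τ θ (i + 1) else 0) := by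
        rw [hS, Finset.mul_sum, ENNReal.ofReal_sum_of_nonneg]
        · refine Finset.sum_congr rfl (fun i _ => ?_)
          split_ifs
          · rfl
          · rw [mul_zero]
        · intro i _
          split_ifs
          · exact mul_nonneg (by positivity) (hL _).1
          · rw [mul_zero]
      rw [e]
      exact ENNReal.sum_le_tsum _
  -- summation
  refine (ENNReal.tsum_le_tsum key).trans ?_
  rw [ENNReal.tsum_add, ENNReal.tsum_add]
  have hY3 : (Y / 2) ^ (-3 : ℝ) = 8 * (2 : ℝ) ^ (-(3 * (v : ℝ))) := by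
    rw [Real.div_rpow hY0.le (by norm_num), hYr, ← Real.rpow_mul (by norm_num)]
    have e8 : (2 : ℝ) ^ (-3 : ℝ) = 1 / 8 := by
      rw [Real.rpow_neg (by norm_num)]
      norm_num
    rw [e8]
    have : (v : ℝ) * -3 = -(3 * (v : ℝ)) := by ring
    rw [this]
    ring
  have s1 : ∑' u, a1 u ≤ ENNReal.ofReal (8 * (C₁ * A) * (101 * E1 + 100 * E2)) := by
    rw [ha1, ENNReal.tsum_mul_left]
    refine (mul_le_mul' le_rfl hs1).trans ?_
    rw [← ENNReal.ofReal_mul (by positivity)]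
    refine ENNReal.ofReal_le_ofReal (le_of_eq ?_)
    rw [hY3]
    have f1 : B * (2 : ℝ) ^ (-(3 * (v : ℝ))) = E1 := by
      rw [hB', hE1, ← Real.rpow_add (by norm_num)]
      congr 1
      ring
    have f2 : Q * (2 : ℝ) ^ (-(3 * (v : ℝ))) = E2 := by
      rw [hQr, hE2, ← Real.rpow_add (by norm_num)]
      congr 1
    rw [← f1, ← f2]
    ring
  have s2 : ∑' u, a2 u = ENNReal.ofReal (2 * (109 * E1 + 100 * E2)) := by
    rw [ha2]
    exact bn2_geo v _ (by positivity)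
  have s4 : ∑' u, a4 u ≤ ENNReal.ofReal (100 * (C₁ * A) * E1) := by
    rw [ha4, ENNReal.tsum_mul_left]
    refine (mul_le_mul' le_rfl hs2).trans ?_
    rw [← ENNReal.ofReal_mul (by positivity)]
    refine ENNReal.ofReal_le_ofReal (le_of_eq ?_)
    have f1 : lam⁻¹ * lam ^ (1 - 3 : ℝ) = E1 := by
      rw [← Real.rpow_neg_one lam, ← Real.rpow_add hlam0, hlamr, hE1, ← Real.rpow_mul (by norm_num)]
      congr 1
      ring
    rw [← f1]
    ring
  rw [s2]
  refine (add_le_add (add_le_add s1 le_rfl) s4).trans ?_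
  rw [← ENNReal.ofReal_add (by positivity) (by positivity),
    ← ENNReal.ofReal_add (by positivity) (by positivity), ← hE1, ← hE2]
  refine ENNReal.ofReal_le_ofReal ?_
  have m1 : 0 < C₁ * A * E2 := by positivity
  nlinarith

end Pool.Agent.Helper38.P3
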