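import Pool.Agent.Helper61.P3.St4

/-!
# Project P3 (MP_cb927e_an), module PG3: pigeonhole
-/

set_option autoImplicit false

open MeasureTheory Set Filter Topology
open scoped ENNReal RealInnerProductSpace

namespace Pool.Agent.Helper38.P3

open Pool.Agent.Helper61.P3

theorem Vs_nonneg (s : ℕ) : 0 ≤ Vs s := by
  unfold Vs
  positivity

theorem Vs_sum_real (n : ℕ) :
    ∑ s ∈ Finset.range n, Vs (s + 1) ≤ 1 / 16 - 1 / (16 * ((n : ℝ) + 1)) := by
  induction n with
  | zero => norm_num
  | succ n ih =>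
    rw [Finset.sum_range_succ]
    have hn : (0 : ℝ) ≤ n := Nat.cast_nonneg n
    have h1 : Vs (n + 1) ≤ 1 / (16 * ((n : ℝ) + 1)) - 1 / (16 * (((n + 1 : ℕ) : ℝ) + 1)) := by
      unfold Vs
      push_cast
      have e : 1 / (16 * ((n : ℝ) + 1)) - 1 / (16 * ((n : ℝ) + 1 + 1)) =
          1 / (16 * (((n : ℝ) + 1) * ((n : ℝ) + 2))) := by
        field_simp
        ring
      rw [e]
      apply one_div_le_one_div_of_le (by positivity)
      nlinarith
    linarith

theorem Vs_sum (n : ℕ) :
    ∑ s ∈ Finset.range n, ENNReal.ofReal (Vs (s + 1)) ≤ ENNReal.ofReal (1 / 16) := by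
  rw [← ENNReal.ofReal_sum_of_nonneg (fun s _ => Vs_nonneg _)]
  apply ENNReal.ofReal_le_ofReal
  have h := Vs_sum_real n
  have : 0 ≤ 1 / (16 * ((n : ℝ) + 1)) := by positivity
  linarith

theorem Vs_tsum : ∑' s : ℕ, ENNReal.ofReal (Vs (s + 1)) ≤ ENNReal.ofReal (1 / 16) :=
  ENNReal.tsum_le_of_sum_range_le Vs_sum

theorem tsum_A : ∑' u : ℕ, (if 1 ≤ u then ENNReal.ofReal (Vs u) else 0) ≤ ENNReal.ofReal (1 / 16) := by
  rw [tsum_eq_zero_add' ENNReal.summable]
  simpa using Vs_tsum

theorem tsum_C (i : ℕ) :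
    ∑' u : ℕ, (if i < u then ENNReal.ofReal (Vs (u - i)) else 0) ≤ ENNReal.ofReal (1 / 16) := by
  have hinj : Function.Injective (fun s : ℕ => s + 1 + i) := fun a b h => by simpa using h
  have hsup : Function.support (fun u : ℕ => (if i < u then ENNReal.ofReal (Vs (u - i)) else 0)) ⊆
      Set.range (fun s : ℕ => s + 1 + i) := by
    intro u hu
    have : i < u := by
      by_contra h
      exact hu (if_neg h)
    exact ⟨u - i - 1, by show u - i - 1 + 1 + i = u; omega⟩
  rw [← hinj.tsum_eq hsup]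
  refine le_trans (le_of_eq (tsum_congr fun s => ?_)) Vs_tsum
  rw [if_pos (by omega), Nat.add_sub_cancel]

theorem tsum_D (i : ℕ) :
    ∑' u : ℕ, (if u < i then ENNReal.ofReal (Vs (i - u)) else 0) ≤ ENNReal.ofReal (1 / 16) := by
  rw [tsum_eq_sum (s := Finset.range i)]
  · refine le_trans (le_of_eq ?_) (Vs_sum i)
    rw [← Finset.sum_range_reflect (fun s => ENNReal.ofReal (Vs (s + 1))) i]
    refine Finset.sum_congr rfl (fun u hu => ?_)
    have hu' := Finset.mem_range.1 hu
    rw [if_pos hu']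
    congr 3
    omega
  · intro u hu
    rw [if_neg]
    intro h
    exact hu (Finset.mem_range.2 h)

theorem hPG3 : Pool.Agent.Helper61.P3.StPG3 := by
  classical
  intro v hv
  by_contra hcon
  push Not at hcon
  obtain ⟨hA, hB, hC⟩ := hcon
  have hq : ENNReal.ofReal (1 / 4) < ENNReal.ofReal (1 / 2) :=
    (ENNReal.ofReal_lt_ofReal_iff (by norm_num)).2 (by norm_num)
  by_cases hex : ∃ i, 2 ≤ i ∧ ENNReal.ofReal (Vs i) ≤ v i
  swap
  · push Not at hex
    have h1 : ∑' u : ℕ, (if 2 ≤ u then v u else 0) ≤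
        ∑' u : ℕ, (if 1 ≤ u then ENNReal.ofReal (Vs u) else 0) := by
      refine ENNReal.tsum_le_tsum fun u => ?_
      by_cases hu : 2 ≤ u
      · rw [if_pos hu, if_pos (by omega)]
        exact (hex u hu).le
      · rw [if_neg hu]
        exact zero_le
    have h2 := hv.trans (h1.trans tsum_A)
    have h3 : ENNReal.ofReal (1 / 16) ≤ ENNReal.ofReal (1 / 4) := ENNReal.ofReal_le_ofReal (by norm_num)
    exact absurd (h2.trans h3) (not_le.2 hq)
  · obtain ⟨hi2, hiv⟩ := Nat.find_spec hex
    have hmin : ∀ i, i < Nat.find hex → 2 ≤ i → v i < ENNReal.ofReal (Vs i) := by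
      intro i hi h2
      by_contra h
      push Not at h
      exact Nat.find_min hex hi ⟨h2, h⟩
    obtain ⟨i₀, hi₀⟩ : ∃ i₀, i₀ = Nat.find hex := ⟨_, rfl⟩
    rw [← hi₀] at hi2 hiv hmin
    have hlarge : ∀ i, 9 * i₀ < i → v i < ENNReal.ofReal (Vs i) := by
      intro i hi
      have h := hC i₀ (i - i₀) hi2 (by omega) hiv
      rw [show i₀ + (i - i₀) = i by omega] at h
      exact h
    obtain ⟨i₁, hi₁, hmax⟩ := Finset.exists_max_image (Finset.Icc i₀ (9 * i₀)) v
      ⟨i₀, Finset.mem_Icc.2 ⟨le_rfl, by omega⟩⟩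
    rw [Finset.mem_Icc] at hi₁
    have hmid1 : ∀ i, i₀ ≤ i → i ≤ 9 * i₀ → i₁ < i → v i < ENNReal.ofReal (Vs (i - i₁)) := by
      intro i h1 h2 h3
      by_contra h
      push Not at h
      have h4 := hmax i (Finset.mem_Icc.2 ⟨h1, h2⟩)
      have h5 := hB i₁ (i - i₁) (by omega) (by omega) (by omega) (h.trans h4)
      rw [show i₁ + (i - i₁) = i by omega] at h5
      exact absurd h (not_le.2 h5)
    have hmid2 : ∀ i, i₀ ≤ i → i ≤ 9 * i₀ → i < i₁ → v i < ENNReal.ofReal (Vs (i₁ - i)) := by
      intro i h1 h2 h3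
      by_contra h
      push Not at h
      have h4 := hmax i (Finset.mem_Icc.2 ⟨h1, h2⟩)
      have h5 := hB i (i₁ - i) (by omega) (by omega) (by omega) h
      rw [show i + (i₁ - i) = i₁ by omega] at h5
      exact absurd (h.trans h4) (not_le.2 h5)
    have hterm : ∀ u : ℕ, (if 2 ≤ u then v u else 0) ≤
        (if 1 ≤ u then ENNReal.ofReal (Vs u) else 0) + (if u = i₁ then ENNReal.ofReal (1 / 16) else 0) +
        ((if i₁ < u then ENNReal.ofReal (Vs (u - i₁)) else 0) +
          (if u < i₁ then ENNReal.ofReal (Vs (i₁ - u)) else 0)) := by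
      intro u
      by_cases hu : 2 ≤ u
      swap
      · rw [if_neg hu]
        exact zero_le
      rw [if_pos hu]
      by_cases hc1 : u < i₀
      · have h := (hmin u hc1 hu).le
        rw [if_pos (show 1 ≤ u by omega)]
        exact h.trans (le_trans le_self_add le_self_add)
      · by_cases hc2 : 9 * i₀ < u
        · have h := (hlarge u hc2).le
          rw [if_pos (show 1 ≤ u by omega)]
          exact h.trans (le_trans le_self_add le_self_add)
        · rcases lt_trichotomy u i₁ with h | h | h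
          · have h6 := (hmid2 u (by omega) (by omega) h).le
            rw [if_pos h]
            exact h6.trans (le_trans le_add_self le_add_self)
          · have h6 := (hA u hu).le
            rw [if_pos h]
            exact h6.trans (le_trans le_add_self le_self_add)
          · have h6 := (hmid1 u (by omega) (by omega) h).le
            rw [if_pos h]
            exact h6.trans (le_trans le_self_add le_add_self)
    have h1 := hv.trans (ENNReal.tsum_le_tsum hterm)
    rw [ENNReal.tsum_add, ENNReal.tsum_add, ENNReal.tsum_add, tsum_ite_eq] at h1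
    have h2 : ENNReal.ofReal (1 / 2) ≤ ENNReal.ofReal (1 / 16) + ENNReal.ofReal (1 / 16) +
        (ENNReal.ofReal (1 / 16) + ENNReal.ofReal (1 / 16)) :=
      h1.trans (add_le_add (add_le_add tsum_A le_rfl) (add_le_add (tsum_C i₁) (tsum_D i₁)))
    rw [← ENNReal.ofReal_add (by norm_num) (by norm_num),
      ← ENNReal.ofReal_add (by norm_num) (by norm_num)] at h2
    have h3 : ENNReal.ofReal (1 / 16 + 1 / 16 + (1 / 16 + 1 / 16)) ≤ ENNReal.ofReal (1 / 4) :=
      ENNReal.ofReal_le_ofReal (by norm_num)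
    exact absurd (h2.trans h3) (not_le.2 hq)

end Pool.Agent.Helper38.P3
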