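import Pool.Agent.Helper61.P3.St1
import Pool.Agent.Helper17.RG.M_SM1

/-!
# Project P3 (MP_cb927e_an), module SMA: pairs of ridge functions
-/

set_option autoImplicit false

open MeasureTheory Set Filter Topology
open scoped ENNReal RealInnerProductSpace

namespace Pool.Agent.Helper38.P3

open Pool.Agent.Helper61.P3
open Pool.Agent.Helper68.LM (Pl BB Bd Av HL ft fm DQ)
open Pool.Agent.Helper20.RG
open Pool.Agent.Helper20.EQ
open Pool.Agent.Helper68.EP (elt GapP)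
open Pool.Agent.Helper17.RG

/-- `c1` is close to itself in the second coordinate: the Lipschitz bound for the cutoff in the skew coordinate -/
theorem psi_lip_SMA (s' σ D L₂ z0 z1 : ℝ) (hs' : |s'| ≤ 1) (hD : D ≠ 0) (hL : 0 < L₂) (x y : ℝ) :
    |c1 (((x - σ) / D - z0) / L₂) * c1 ((σ + s' * ((x - σ) / D) - z1) / L₂) -
      c1 (((y - σ) / D - z0) / L₂) * c1 ((σ + s' * ((y - σ) / D) - z1) / L₂)| ≤
      2 / (L₂ * |D|) * |x - y| := by
  have hD0 : 0 < |D| := abs_pos.2 hD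
  set a1 := c1 (((x - σ) / D - z0) / L₂)
  set b1 := c1 ((σ + s' * ((x - σ) / D) - z1) / L₂)
  set a2 := c1 (((y - σ) / D - z0) / L₂)
  set b2 := c1 ((σ + s' * ((y - σ) / D) - z1) / L₂)
  have ha : |a1 - a2| ≤ |x - y| / (L₂ * |D|) := by
    refine (c1_lip_SM1 _ _).trans ?_
    have e : ((x - σ) / D - z0) / L₂ - ((y - σ) / D - z0) / L₂ = (x - y) / (L₂ * D) := by
      field_simp; ring
    rw [e, abs_div, abs_mul, abs_of_pos hL]
  have hb : |b1 - b2| ≤ |x - y| / (L₂ * |D|) := by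
    refine (c1_lip_SM1 _ _).trans ?_
    have e : (σ + s' * ((x - σ) / D) - z1) / L₂ - (σ + s' * ((y - σ) / D) - z1) / L₂ =
        s' * ((x - y) / (L₂ * D)) := by
      field_simp; ring
    rw [e, abs_mul, abs_div, abs_mul, abs_of_pos hL]
    calc |s'| * (|x - y| / (L₂ * |D|)) ≤ 1 * (|x - y| / (L₂ * |D|)) :=
          mul_le_mul_of_nonneg_right hs' (by positivity)
      _ = _ := one_mul _
  have e3 : a1 * b1 - a2 * b2 = a1 * (b1 - b2) + (a1 - a2) * b2 := by ring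
  rw [e3]
  have h1 : |a1 * (b1 - b2)| ≤ |x - y| / (L₂ * |D|) := by
    rw [abs_mul, abs_of_nonneg (c1_nn_SM1 _)]
    calc a1 * |b1 - b2| ≤ 1 * (|x - y| / (L₂ * |D|)) :=
          mul_le_mul (c1_le_SM1 _) hb (abs_nonneg _) zero_le_one
      _ = _ := one_mul _
  have h2 : |(a1 - a2) * b2| ≤ |x - y| / (L₂ * |D|) := by
    rw [abs_mul, abs_of_nonneg (c1_nn_SM1 (_ : ℝ))]
    calc |a1 - a2| * b2 ≤ (|x - y| / (L₂ * |D|)) * 1 :=
          mul_le_mul ha (c1_le_SM1 _) (c1_nn_SM1 _) (by positivity)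
      _ = _ := mul_one _
  have h3 := abs_add_le (a1 * (b1 - b2)) ((a1 - a2) * b2)
  have h4 : 2 / (L₂ * |D|) * |x - y| = |x - y| / (L₂ * |D|) + |x - y| / (L₂ * |D|) := by ring
  rw [h4]
  linarith

/-- the difference of a Lipschitz function and its average -/
theorem avg_SMA (hGR : StGR) {κ : ℤ → ℝ} (hκ : Gr κ) (a : ℤ) (ψ : ℝ → ℝ) (c M : ℝ) (hψ : Measurable ψ)
    (hM : ∀ t, |ψ t| ≤ M) (hlip : ∀ x y, |ψ x - ψ y| ≤ c * |x - y|) (hc : 0 ≤ c) (ρ : ℝ) :
    |ψ ρ - Ed κ a ψ ρ| ≤ c * (2 : ℝ) ^ a := by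
  obtain ⟨hmem, hms, hvol, -⟩ := hGR.1 κ hκ a ρ
  have h2a : (0 : ℝ) < (2 : ℝ) ^ a := zpow_pos (by norm_num) _
  have hfin : volume (Ia κ a ρ) < ⊤ := by rw [hvol]; exact ENNReal.ofReal_lt_top
  have hreal : volume.real (Ia κ a ρ) = (2 : ℝ) ^ a := by
    rw [Measure.real, hvol, ENNReal.toReal_ofReal h2a.le]
  have hint : Integrable ψ (volume.restrict (Ia κ a ρ)) :=
    Measure.integrableOn_of_bounded (M := M) hfin.ne hψ.aestronglyMeasurable
      (Eventually.of_forall fun t => by rw [Real.norm_eq_abs]; exact hM t)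
  have hconst : Integrable (fun _ : ℝ => ψ ρ) (volume.restrict (Ia κ a ρ)) :=
    integrableOn_const (hs := hfin.ne) (hC := enorm_ne_top)
  have e1 : ψ ρ - Ed κ a ψ ρ = (2 : ℝ) ^ (-a) * ∫ r in Ia κ a ρ, (ψ ρ - ψ r) := by
    rw [integral_sub hconst hint,
      setIntegral_const, hreal, smul_eq_mul, mul_sub, ← mul_assoc, ← zpow_add₀ (by norm_num : (2 : ℝ) ≠ 0)]
    rw [neg_add_cancel, zpow_zero, one_mul]
    rfl
  have h1 : ‖∫ r in Ia κ a ρ, (ψ ρ - ψ r)‖ ≤ (c * (2 : ℝ) ^ a) * volume.real (Ia κ a ρ) := by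
    apply norm_setIntegral_le_of_norm_le_const hfin
    intro r hr
    rw [Real.norm_eq_abs]
    refine (hlip _ _).trans ?_
    apply mul_le_mul_of_nonneg_left _ hc
    unfold Ia at hr hmem
    rw [abs_le]
    constructor <;> linarith [hr.1, hr.2, hmem.1, hmem.2]
  rw [e1, abs_mul, abs_of_pos (zpow_pos (by norm_num : (0 : ℝ) < 2) _)]
  rw [Real.norm_eq_abs, hreal] at h1
  calc (2 : ℝ) ^ (-a) * |∫ r in Ia κ a ρ, (ψ ρ - ψ r)| ≤ (2 : ℝ) ^ (-a) * (c * (2 : ℝ) ^ a * (2 : ℝ) ^ a) :=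
        mul_le_mul_of_nonneg_left h1 (zpow_pos (by norm_num) _).le
    _ = c * (2 : ℝ) ^ a := by
        have : (2 : ℝ) ^ (-a) * (2 : ℝ) ^ a = 1 := by
          rw [← zpow_add₀ (by norm_num : (2 : ℝ) ≠ 0), neg_add_cancel, zpow_zero]
        linear_combination (c * (2 : ℝ) ^ a) * this

/-- if the difference does not vanish then the function does not vanish on the interval -/
theorem supp_SMA (hGR : StGR) {κ : ℤ → ℝ} (hκ : Gr κ) (a : ℤ) (ψ : ℝ → ℝ) (ρ : ℝ)
    (h : ψ ρ - Ed κ a ψ ρ ≠ 0) : ∃ r, |ρ - r| ≤ (2 : ℝ) ^ a ∧ ψ r ≠ 0 := by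
  by_contra hcon
  push Not at hcon
  obtain ⟨hmem, hms, hvol, -⟩ := hGR.1 κ hκ a ρ
  have h2a : (0 : ℝ) < (2 : ℝ) ^ a := zpow_pos (by norm_num) _
  apply h
  have h0 : ∀ r ∈ Ia κ a ρ, ψ r = 0 := by
    intro r hr
    apply hcon
    unfold Ia at hr hmem
    rw [abs_le]
    constructor <;> linarith [hr.1, hr.2, hmem.1, hmem.2]
  have e1 : ∫ r in Ia κ a ρ, ψ r = 0 := by
    rw [setIntegral_congr_fun hms (g := fun _ => (0 : ℝ)) h0]
    simp
  rw [h0 ρ hmem]
  unfold Ed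
  rw [e1]
  ring

theorem hSMA (hPT : StPT) (hGR : StGR) (hGA : StGA) : StSMA := by
  intro s s' κ a z L₂ h K hs hs' hκ hL₂ h2aL hh hh02 hK hK4
  obtain ⟨hpt, -, -, -, hptc, -, hint2, hsq⟩ := hPT
  have h2a : (0 : ℝ) < (2 : ℝ) ^ a := zpow_pos (by norm_num) _
  obtain ⟨D, hD⟩ : ∃ D : ℝ, D = s' - s := ⟨_, rfl⟩
  have hDs : |s - s'| = |D| := by rw [hD, abs_sub_comm]
  rw [hDs] at h2aL ⊢
  have hD0 : 0 < |D| := by
    rcases (abs_nonneg D).lt_or_eq with h | h
    · exact h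
    · rw [← h] at h2aL; linarith
  have hDne : D ≠ 0 := abs_pos.1 hD0
  have hD2 : |D| ≤ 2 := by
    rw [hD]
    have := abs_sub s' s
    linarith
  have h2aL2 : (2 : ℝ) ^ a ≤ 2 * L₂ := by
    have : L₂ * |D| ≤ L₂ * 2 := mul_le_mul_of_nonneg_left hD2 hL₂.le
    linarith
  have hhabs : ∀ t, |h t| ≤ 2 := fun t => by rw [abs_of_nonneg (hh02 t).1]; exact (hh02 t).2
  obtain ⟨hEm, hEb, -⟩ := hGA κ hκ h 2 a hh hhabs
  obtain ⟨T, hT⟩ : ∃ T : ℝ → ℝ, T = fun t => h t - Ed κ a h t := ⟨_, rfl⟩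
  have hTm : Measurable T := by rw [hT]; exact hh.sub hEm
  have hT4 : ∀ t, |T t| ≤ 4 := by
    intro t
    rw [hT]
    show |h t - Ed κ a h t| ≤ 4
    have h1 := abs_sub (h t) (Ed κ a h t)
    have h2 := hhabs t
    have h3 := hEb t
    linarith
  obtain ⟨f, hf⟩ : ∃ f : Pl → ℝ, f = fun y => cut z L₂ y * (T (pr s y) * K (pr s' y)) := ⟨_, rfl⟩
  have hfm : Measurable f := by
    rw [hf]
    exact (cut_meas_SM1 z L₂).mul ((hTm.comp (pr_meas_SM1 s)).mul (hK.comp (pr_meas_SM1 s')))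
  have hf1 : ∀ y, |f y| ≤ 16 := by
    intro y
    rw [hf]
    show |cut z L₂ y * (T (pr s y) * K (pr s' y))| ≤ 16
    rw [abs_mul, abs_mul, abs_of_nonneg (cut_nn_SM1 z L₂ y)]
    calc cut z L₂ y * (|T (pr s y)| * |K (pr s' y)|) ≤ 1 * (4 * 4) :=
          mul_le_mul (cut_le_SM1 z L₂ y) (mul_le_mul (hT4 _) (hK4 _) (abs_nonneg _) (by norm_num))
            (by positivity) zero_le_one
      _ = 16 := by norm_num
  have hfs : ∀ y, f y ≠ 0 → |y 0 - z 0| ≤ 2 * L₂ ∧ |y 1 - z 1| ≤ 2 * L₂ := by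
    intro y hy
    apply cut_supp_SM1 z hL₂
    intro h0
    apply hy
    rw [hf]
    show cut z L₂ y * _ = 0
    rw [h0, zero_mul]
  have hfint : Integrable f := by
    obtain ⟨hm, hv⟩ := hsq z (2 * L₂) (by linarith)
    have he : f = (Sq z (2 * L₂)).indicator f := by
      funext y
      by_cases hy : f y = 0
      · by_cases h : y ∈ Sq z (2 * L₂)
        · rw [indicator_of_mem h]
        · rw [indicator_of_notMem h, hy]
      · rw [indicator_of_mem]
        exact hfs y hy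
    rw [he, integrable_indicator_iff hm]
    refine Measure.integrableOn_of_bounded (M := 16) ?_ hfm.aestronglyMeasurable ?_
    · rw [hv]; exact ENNReal.ofReal_ne_top
    · exact Eventually.of_forall fun y => by rw [Real.norm_eq_abs]; exact hf1 y
  -- coordinates
  obtain ⟨G, hG⟩ : ∃ G : ℝ → ℝ → ℝ, G = fun a' σ => f (pt a' (σ + s' * a')) := ⟨_, rfl⟩
  have hI1 : ∫ y, f y = ∫ a' : ℝ, ∫ σ : ℝ, G a' σ := by
    rw [hint2 f hfint]
    apply integral_congr_ae
    refine Eventually.of_forall fun a' => ?_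
    show ∫ b : ℝ, f (pt a' b) = ∫ σ : ℝ, G a' σ
    rw [← integral_add_right_eq_self (fun b => f (pt a' b)) (s' * a'), hG]
  have hGval : ∀ a' σ, G a' σ = cut z L₂ (pt a' (σ + s' * a')) * (T (σ + D * a') * K σ) := by
    intro a' σ
    rw [hG, hf]
    show cut z L₂ (pt a' (σ + s' * a')) * (T (pr s (pt a' (σ + s' * a'))) *
      K (pr s' (pt a' (σ + s' * a')))) = _
    have e1 : pr s (pt a' (σ + s' * a')) = σ + D * a' := by
      unfold pr
      rw [(hpt _ _).1, (hpt _ _).2, hD]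
      ring
    have e2 : pr s' (pt a' (σ + s' * a')) = σ := by
      unfold pr
      rw [(hpt _ _).1, (hpt _ _).2]
      ring
    rw [e1, e2]
  have hGs : ∀ a' σ, G a' σ ≠ 0 → |a' - z 0| ≤ 2 * L₂ ∧ |σ - pr s' z| ≤ 4 * L₂ := by
    intro a' σ h
    rw [hG] at h
    obtain ⟨h1, h2⟩ := hfs _ h
    rw [(hpt _ _).1] at h1
    rw [(hpt _ _).2] at h2
    refine ⟨h1, ?_⟩
    unfold pr
    have e : σ - (z 1 - s' * z 0) = (σ + s' * a' - z 1) - s' * (a' - z 0) := by ring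
    rw [e]
    have e1 : |s' * (a' - z 0)| ≤ 1 * (2 * L₂) := by
      rw [abs_mul]
      exact mul_le_mul hs' h1 (abs_nonneg _) zero_le_one
    have e2 := abs_sub (σ + s' * a' - z 1) (s' * (a' - z 0))
    linarith
  have hGint : Integrable (Function.uncurry G) (volume.prod volume) := by
    have hms : MeasurableSet (Icc (z 0 - 2 * L₂) (z 0 + 2 * L₂) ×ˢ
        Icc (pr s' z - 4 * L₂) (pr s' z + 4 * L₂)) := measurableSet_Icc.prod measurableSet_Icc
    have he : Function.uncurry G = (Icc (z 0 - 2 * L₂) (z 0 + 2 * L₂) ×ˢ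
        Icc (pr s' z - 4 * L₂) (pr s' z + 4 * L₂)).indicator (Function.uncurry G) := by
      funext q
      by_cases hy : Function.uncurry G q = 0
      · by_cases h : q ∈ Icc (z 0 - 2 * L₂) (z 0 + 2 * L₂) ×ˢ
            Icc (pr s' z - 4 * L₂) (pr s' z + 4 * L₂)
        · rw [indicator_of_mem h]
        · rw [indicator_of_notMem h, hy]
      · rw [indicator_of_mem]
        obtain ⟨h1, h2⟩ := hGs q.1 q.2 hy
        rw [abs_le] at h1 h2
        exact ⟨⟨by linarith [h1.1], by linarith [h1.2]⟩, ⟨by linarith [h2.1], by linarith [h2.2]⟩⟩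
    rw [he, integrable_indicator_iff hms]
    refine Measure.integrableOn_of_bounded (M := 16) ?_ ?_ ?_
    · rw [Measure.prod_prod]
      exact ENNReal.mul_ne_top (by simp) (by simp)
    · rw [hG]
      have hc : Continuous (fun q : ℝ × ℝ => pt q.1 (q.2 + s' * q.1)) :=
        hptc.comp (by fun_prop : Continuous fun q : ℝ × ℝ => (q.1, q.2 + s' * q.1))
      exact (hfm.comp hc.measurable).aestronglyMeasurable
    · refine Eventually.of_forall fun q => ?_
      rw [Real.norm_eq_abs, hG]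
      exact hf1 _
  have hI2 : ∫ y, f y = ∫ σ : ℝ, ∫ a' : ℝ, G a' σ := by
    rw [hI1]
    exact integral_integral_swap hGint
  -- the majorant
  obtain ⟨S, hS⟩ : ∃ S : Set (ℝ × ℝ), S = {q | |(q.2 - q.1) / D - z 0| ≤ 3 * L₂} := ⟨_, rfl⟩
  have hSm : MeasurableSet S := by
    rw [hS]
    exact measurableSet_le (by fun_prop) measurable_const
  obtain ⟨J, hJ⟩ : ∃ J : Set ℝ, J = Icc (pr s z - 6 * L₂) (pr s z + 6 * L₂) := ⟨_, rfl⟩
  have hJm : MeasurableSet J := by rw [hJ]; exact measurableSet_Icc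
  obtain ⟨H, hH⟩ : ∃ H : ℝ → ℝ≥0∞, H = J.indicator (fun ρ => ENNReal.ofReal (h ρ)) := ⟨_, rfl⟩
  have hHm : Measurable H := by rw [hH]; exact hh.ennreal_ofReal.indicator hJm
  obtain ⟨Q, hQ⟩ : ∃ Q : ℝ → ℝ → ℝ≥0∞, Q = fun σ ρ => S.indicator (fun _ => (1 : ℝ≥0∞)) (σ, ρ) * H ρ :=
    ⟨_, rfl⟩
  have hQm : Measurable (Function.uncurry Q) := by
    rw [hQ]
    exact (measurable_const.indicator hSm).mul (hHm.comp measurable_snd)
  -- the inner integral
  have hin : ∀ σ, ‖∫ a' : ℝ, G a' σ‖ₑ ≤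
      ENNReal.ofReal (8 * (2 : ℝ) ^ a / (L₂ * |D| ^ 2)) * ∫⁻ ρ, Q σ ρ := by
    intro σ
    obtain ⟨ψ, hψ⟩ : ∃ ψ : ℝ → ℝ, ψ = fun ρ => cut z L₂ (pt ((ρ - σ) / D) (σ + s' * ((ρ - σ) / D))) :=
      ⟨_, rfl⟩
    have e1 : ∫ a' : ℝ, G a' σ = |D|⁻¹ * ∫ ρ, G ((ρ - σ) / D) σ := by
      have h1 := integral_sub_right_eq_self (μ := volume) (fun x => G (x / D) σ) σ
      have h2 := Measure.integral_comp_div (fun x => G x σ) D
      rw [h1, h2, smul_eq_mul, ← mul_assoc, inv_mul_cancel₀ hD0.ne', one_mul]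
    have e2 : ∀ ρ, G ((ρ - σ) / D) σ = ψ ρ * T ρ * K σ := by
      intro ρ
      rw [hGval, hψ]
      have : σ + D * ((ρ - σ) / D) = ρ := by field_simp; ring
      rw [this]
      ring
    simp_rw [e2] at e1
    rw [integral_mul_const] at e1
    have hψv : ∀ ρ, ψ ρ = c1 (((ρ - σ) / D - z 0) / L₂) * c1 ((σ + s' * ((ρ - σ) / D) - z 1) / L₂) := by
      intro ρ
      rw [hψ]
      unfold cut
      simp only [(hpt _ _).1, (hpt _ _).2]
    have hψm : Measurable ψ := by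
      have : ψ = fun ρ => c1 (((ρ - σ) / D - z 0) / L₂) * c1 ((σ + s' * ((ρ - σ) / D) - z 1) / L₂) := by
        funext ρ; exact hψv ρ
      rw [this]
      have m1 : Measurable (fun ρ : ℝ => ((ρ - σ) / D - z 0) / L₂) := by fun_prop
      have m2 : Measurable (fun ρ : ℝ => (σ + s' * ((ρ - σ) / D) - z 1) / L₂) := by fun_prop
      exact (c1_meas_SM1.comp m1).mul (c1_meas_SM1.comp m2)
    have hlip : ∀ x y, |ψ x - ψ y| ≤ 2 / (L₂ * |D|) * |x - y| := by
      intro x y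
      rw [hψv, hψv]
      exact psi_lip_SMA s' σ D L₂ (z 0) (z 1) hs' hDne hL₂ x y
    have hψ1 : ∀ x, |ψ x| ≤ 1 := by
      intro x
      rw [hψ]
      show |cut z L₂ _| ≤ 1
      rw [abs_of_nonneg (cut_nn_SM1 _ _ _)]
      exact cut_le_SM1 _ _ _
    have hψs : ∀ x, ψ x ≠ 0 → |(x - σ) / D - z 0| ≤ 2 * L₂ ∧ |x - pr s z| ≤ 4 * L₂ := by
      intro x h
      rw [hψ] at h
      obtain ⟨h1, h2⟩ := cut_supp_SM1 z hL₂ _ h
      rw [(hpt _ _).1] at h1
      rw [(hpt _ _).2] at h2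
      refine ⟨h1, ?_⟩
      have e : x - pr s z = (σ + s' * ((x - σ) / D) - z 1) - s * ((x - σ) / D - z 0) := by
        unfold pr
        have : x = σ + D * ((x - σ) / D) := by field_simp; ring
        rw [hD] at this ⊢
        linear_combination this
      rw [e]
      have e1 : |s * ((x - σ) / D - z 0)| ≤ 1 * (2 * L₂) := by
        rw [abs_mul]
        exact mul_le_mul hs h1 (abs_nonneg _) zero_le_one
      have e2 := abs_sub (σ + s' * ((x - σ) / D) - z 1) (s * ((x - σ) / D - z 0))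
      linarith
    have hψi : Integrable ψ := by
      have he : ψ = (Icc (pr s z - 4 * L₂) (pr s z + 4 * L₂)).indicator ψ := by
        funext y
        by_cases hy : ψ y = 0
        · by_cases h : y ∈ Icc (pr s z - 4 * L₂) (pr s z + 4 * L₂)
          · rw [indicator_of_mem h]
          · rw [indicator_of_notMem h, hy]
        · rw [indicator_of_mem]
          have h2 := (hψs y hy).2
          rw [abs_le] at h2
          exact ⟨by linarith [h2.1], by linarith [h2.2]⟩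
      rw [he, integrable_indicator_iff measurableSet_Icc]
      refine Measure.integrableOn_of_bounded (M := 1) (by simp) hψm.aestronglyMeasurable ?_
      exact Eventually.of_forall fun y => by rw [Real.norm_eq_abs]; exact hψ1 y
    obtain ⟨hEψm, hEψb, -, -, -, -, -, -, hEψ, -⟩ := hGA κ hκ ψ 1 a hψm hψ1
    obtain ⟨hEψi, hself⟩ := hEψ hψi h 2 hh hhabs
    have hmulb : ∀ (u v : ℝ → ℝ), Integrable u → Measurable v → (∀ t, |v t| ≤ 2) →
        Integrable (fun ρ => u ρ * v ρ) := by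
      intro u v hu hv hv2
      exact hu.mul_bdd (c := 2) hv.aestronglyMeasurable
        (Eventually.of_forall fun t => by rw [Real.norm_eq_abs]; exact hv2 t)
    have e3 : ∫ ρ, ψ ρ * T ρ = ∫ ρ, (ψ ρ - Ed κ a ψ ρ) * h ρ := by
      have q1 : ∀ ρ, ψ ρ * T ρ = ψ ρ * h ρ - ψ ρ * Ed κ a h ρ := by
        intro ρ; rw [hT]; ring
      have q2 : ∀ ρ, (ψ ρ - Ed κ a ψ ρ) * h ρ = ψ ρ * h ρ - Ed κ a ψ ρ * h ρ := by
        intro ρ; ring
      simp_rw [q1, q2]
      rw [integral_sub (hmulb _ _ hψi hh hhabs) (hmulb _ _ hψi hEm hEb),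
        integral_sub (hmulb _ _ hψi hh hhabs) (hmulb _ _ hEψi hh hhabs), hself]
    have hpoint : ∀ ρ, ‖(ψ ρ - Ed κ a ψ ρ) * h ρ‖ₑ ≤
        ENNReal.ofReal (2 / (L₂ * |D|) * (2 : ℝ) ^ a) * Q σ ρ := by
      intro ρ
      by_cases h0 : ψ ρ - Ed κ a ψ ρ = 0
      · rw [h0, zero_mul, enorm_zero]
        exact zero_le
      · obtain ⟨r, hr1, hr2⟩ := supp_SMA hGR hκ a ψ ρ h0
        obtain ⟨hr3, hr4⟩ := hψs r hr2
        have hS' : (σ, ρ) ∈ S := by
          rw [hS]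
          show |(ρ - σ) / D - z 0| ≤ 3 * L₂
          have e : (ρ - σ) / D - z 0 = ((r - σ) / D - z 0) + (ρ - r) / D := by
            field_simp; ring
          rw [e]
          refine (abs_add_le _ _).trans ?_
          have h5 : |(ρ - r) / D| ≤ L₂ := by
            rw [abs_div, div_le_iff₀ hD0]
            linarith
          linarith
        have hJ' : ρ ∈ J := by
          rw [hJ]
          rw [abs_le] at hr1 hr4
          exact ⟨by linarith [hr1.1, hr4.1], by linarith [hr1.2, hr4.2]⟩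
        have hQv : Q σ ρ = ENNReal.ofReal (h ρ) := by
          rw [hQ, hH]
          show S.indicator (fun _ => (1 : ℝ≥0∞)) (σ, ρ) * J.indicator (fun ρ => ENNReal.ofReal (h ρ)) ρ = _
          rw [indicator_of_mem hS', indicator_of_mem hJ', one_mul]
        rw [hQv, ← ENNReal.ofReal_mul (by positivity), ← ofReal_norm, Real.norm_eq_abs, abs_mul,
          abs_of_nonneg (hh02 ρ).1]
        apply ENNReal.ofReal_le_ofReal
        exact mul_le_mul_of_nonneg_right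
          (avg_SMA hGR hκ a ψ (2 / (L₂ * |D|)) 1 hψm hψ1 hlip (by positivity) ρ) (hh02 ρ).1
    have hQσ : Measurable (Q σ) := hQm.comp (measurable_const.prodMk measurable_id)
    have h5 : ‖∫ ρ, ψ ρ * T ρ‖ₑ ≤ ENNReal.ofReal (2 / (L₂ * |D|) * (2 : ℝ) ^ a) * ∫⁻ ρ, Q σ ρ := by
      rw [e3]
      refine (enorm_integral_le_lintegral_enorm _).trans ?_
      rw [← lintegral_const_mul _ hQσ]
      exact lintegral_mono hpoint
    have h6 : ‖K σ‖ₑ ≤ ENNReal.ofReal 4 := by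
      rw [← ofReal_norm, Real.norm_eq_abs]
      exact ENNReal.ofReal_le_ofReal (hK4 σ)
    have h7 : ‖|D|⁻¹‖ₑ = ENNReal.ofReal |D|⁻¹ := by
      rw [← ofReal_norm, Real.norm_eq_abs, abs_of_nonneg (by positivity)]
    rw [e1, enorm_mul, enorm_mul, h7]
    calc ENNReal.ofReal |D|⁻¹ * (‖∫ ρ, ψ ρ * T ρ‖ₑ * ‖K σ‖ₑ)
        ≤ ENNReal.ofReal |D|⁻¹ *
            ((ENNReal.ofReal (2 / (L₂ * |D|) * (2 : ℝ) ^ a) * ∫⁻ ρ, Q σ ρ) * ENNReal.ofReal 4) := by
          gcongr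
      _ = (ENNReal.ofReal |D|⁻¹ * ENNReal.ofReal (2 / (L₂ * |D|) * (2 : ℝ) ^ a) * ENNReal.ofReal 4) *
            ∫⁻ ρ, Q σ ρ := by ring
      _ = ENNReal.ofReal (8 * (2 : ℝ) ^ a / (L₂ * |D| ^ 2)) * ∫⁻ ρ, Q σ ρ := by
          rw [← ENNReal.ofReal_mul (by positivity), ← ENNReal.ofReal_mul (by positivity)]
          congr 2
          field_simp
          ring
  -- Tonelli
  have hvolS : ∀ ρ, ∫⁻ σ, S.indicator (fun _ => (1 : ℝ≥0∞)) (σ, ρ) = ENNReal.ofReal (6 * L₂ * |D|) := by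
    intro ρ
    have e1 : ∀ σ, S.indicator (fun _ => (1 : ℝ≥0∞)) (σ, ρ) =
        (Icc (ρ - D * z 0 - 3 * L₂ * |D|) (ρ - D * z 0 + 3 * L₂ * |D|)).indicator
          (fun _ => (1 : ℝ≥0∞)) σ := by
      intro σ
      have hiff : (σ, ρ) ∈ S ↔ σ ∈ Icc (ρ - D * z 0 - 3 * L₂ * |D|) (ρ - D * z 0 + 3 * L₂ * |D|) := by
        rw [hS]
        show |(ρ - σ) / D - z 0| ≤ 3 * L₂ ↔ _
        have e : (ρ - σ) / D - z 0 = (ρ - σ - D * z 0) / D := by field_simp
        rw [e, abs_div, div_le_iff₀ hD0, abs_le, mem_Icc]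
        constructor
        · rintro ⟨h1, h2⟩
          constructor <;> linarith
        · rintro ⟨h1, h2⟩
          constructor <;> linarith
      by_cases hm : (σ, ρ) ∈ S
      · rw [indicator_of_mem hm, indicator_of_mem (hiff.1 hm)]
      · rw [indicator_of_notMem hm, indicator_of_notMem (fun h => hm (hiff.2 h))]
    simp_rw [e1]
    rw [lintegral_indicator measurableSet_Icc, setLIntegral_const, one_mul, Real.volume_Icc]
    congr 1
    ring
  have hTon : ∫⁻ σ, ∫⁻ ρ, Q σ ρ = ENNReal.ofReal (6 * L₂ * |D|) * ∫⁻ ρ, H ρ := by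
    rw [lintegral_lintegral_swap hQm.aemeasurable, ← lintegral_const_mul _ hHm]
    apply lintegral_congr
    intro ρ
    rw [hQ]
    show ∫⁻ σ, S.indicator (fun _ => (1 : ℝ≥0∞)) (σ, ρ) * H ρ = _
    have hms1 : Measurable fun σ : ℝ => S.indicator (fun _ => (1 : ℝ≥0∞)) (σ, ρ) :=
      (measurable_const.indicator hSm).comp (measurable_id.prodMk measurable_const)
    rw [lintegral_mul_const _ hms1, hvolS ρ]
  have hHi : ∫⁻ ρ, H ρ = ENNReal.ofReal (∫ t in J, h t) := by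
    rw [hH, lintegral_indicator hJm]
    rw [ofReal_integral_eq_lintegral_ofReal]
    · refine Measure.integrableOn_of_bounded (M := 2) ?_ hh.aestronglyMeasurable ?_
      · rw [hJ]; simp
      · exact Eventually.of_forall fun t => by rw [Real.norm_eq_abs]; exact hhabs t
    · exact Eventually.of_forall fun t => (hh02 t).1
  have hfinal : ‖∫ y, f y‖ₑ ≤ ENNReal.ofReal (48 * ((2 : ℝ) ^ a / |D|) * ∫ t in J, h t) := by
    rw [hI2]
    refine (enorm_integral_le_lintegral_enorm _).trans ?_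
    calc ∫⁻ σ, ‖∫ a' : ℝ, G a' σ‖ₑ
        ≤ ∫⁻ σ, ENNReal.ofReal (8 * (2 : ℝ) ^ a / (L₂ * |D| ^ 2)) * ∫⁻ ρ, Q σ ρ := lintegral_mono hin
      _ = ENNReal.ofReal (8 * (2 : ℝ) ^ a / (L₂ * |D| ^ 2)) *
            (ENNReal.ofReal (6 * L₂ * |D|) * ENNReal.ofReal (∫ t in J, h t)) := by
          have hQp : Measurable fun σ => ∫⁻ ρ, Q σ ρ := hQm.lintegral_prod_right'
          rw [lintegral_const_mul _ hQp, hTon, hHi]
      _ = ENNReal.ofReal (48 * ((2 : ℝ) ^ a / |D|) * ∫ t in J, h t) := by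
          rw [← ENNReal.ofReal_mul (by positivity), ← ENNReal.ofReal_mul (by positivity)]
          congr 1
          field_simp
          ring
  have hJ0 : 0 ≤ ∫ t in J, h t := integral_nonneg fun t => (hh02 t).1
  have hgoal : |∫ y : Pl, f y| ≤ 48 * ((2 : ℝ) ^ a / |D|) * ∫ t in J, h t := by
    rw [← ofReal_norm, Real.norm_eq_abs] at hfinal
    exact (ENNReal.ofReal_le_ofReal_iff (by positivity)).1 hfinal
  have hgoal2 : |∫ y : Pl, f y| ≤ 100 * ((2 : ℝ) ^ a / |D|) * ∫ t in J, h t := by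
    refine hgoal.trans ?_
    apply mul_le_mul_of_nonneg_right _ hJ0
    apply mul_le_mul_of_nonneg_right _ (by positivity)
    norm_num
  rw [hf, hT, hJ] at hgoal2
  exact hgoal2

end Pool.Agent.Helper38.P3
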